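import Pool.Agent.Lib.TG1.Dat
import Pool.Agent.Lib.TG_h81.Proj

/-!
# TANK G, C42-ASM: the data with a localisation of a given algebra
-/

set_option autoImplicit false

namespace Pool.Agent.TG83A

open Pool.Agent.TG (Ov ZDim IsMin)
open Pool.Agent.TG1 (Dat)
open Pool.Agent.TG1.DatAux
open Pool.Agent.LU2 (locV)

universe u

variable {k K : Type u} [Field k] [Field K] [Algebra k K]

/-- A localisation of the data. -/
theorem dat_loc {n : ℕ} {D : Fin (n + 1) → Derivation k K K} {z : Fin (n + 1) → K}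
    {A : Subalgebra k K} (dat : Dat D z A) {s : K} (hs : s ∈ A) (hs0 : s ≠ 0) :
    Dat D z (loc A s hs) where
  fgK := dat.fgK
  trd := dat.trd
  db := dat.db
  fg := loc_fg hs0 dat.fg
  frac := fun x => by
    obtain ⟨a, ha, b, hb, h0, h⟩ := dat.frac x
    exact ⟨a, le_loc ha, b, le_loc hb, h0, h⟩
  stab := fun i a ha => loc_stab hs0 (fun a ha => le_loc (dat.stab i a ha)) a ha
  clos := fun x hx => loc_clos dat.clos x hx
  z_mem := fun i => le_loc (dat.z_mem i)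

/-- **Existence of the data**, with `A` a localisation of `A₀`. -/
theorem exists_dat_loc [IsAlgClosed k] (n : ℕ) (hK : (⊤ : IntermediateField k K).FG)
    (ht : Algebra.trdeg k K = ((n + 1 : ℕ) : Cardinal)) {A₀ : Subalgebra k K} (hA : A₀.FG)
    (hfr : ∀ x : K, ∃ a ∈ A₀, ∃ s ∈ A₀, s ≠ 0 ∧ x = a / s) :
    ∃ (D : Fin (n + 1) → Derivation k K K) (z : Fin (n + 1) → K) (A : Subalgebra k K),
      Dat D z A ∧ A₀ ≤ A ∧ ∃ s ∈ A₀, s ≠ 0 ∧ s⁻¹ ∈ A ∧ ∀ a ∈ A, ∃ m : ℕ, s ^ m * a ∈ A₀ := by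
  classical
  obtain ⟨Z, hZ⟩ := hA
  obtain ⟨D, z, A, dat, hAZ⟩ := Pool.Agent.TG1.exists_dat n hK (by rw [ht]; push_cast; rfl) Z
  have hle : A₀ ≤ A := by
    rw [← hZ, Algebra.adjoin_le_iff]
    intro x hx
    rcases eq_or_ne x 0 with rfl | h0
    · exact A.zero_mem
    · exact (hAZ x (Finset.mem_coe.1 hx) h0).1
  obtain ⟨T, hT⟩ := id dat.fg
  choose num hnum den hden hden0 hx using hfr
  let s : K := ∏ y ∈ T, den y
  have hs : s ∈ A₀ := A₀.prod_mem fun y _ => hden y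
  have hs0 : s ≠ 0 := Finset.prod_ne_zero_iff.2 fun y _ => hden0 y
  have hTs : ∀ y ∈ T, y ∈ loc A₀ s hs := by
    intro y hy
    refine ⟨1, ?_⟩
    have h1 : s = den y * ∏ y' ∈ T.erase y, den y' := (Finset.mul_prod_erase T den hy).symm
    have h2 : s ^ 1 * y = num y * ∏ y' ∈ T.erase y, den y' := by
      have h3 : y * den y = num y := (eq_div_iff (hden0 y)).1 (hx y)
      rw [pow_one, h1, ← h3]
      ring
    rw [h2]
    exact A₀.mul_mem (hnum y) (A₀.prod_mem fun y _ => hden y)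
  have hAs : A ≤ loc A₀ s hs := by
    rw [← hT, Algebra.adjoin_le_iff]
    intro y hy
    exact hTs y (Finset.mem_coe.1 hy)
  refine ⟨D, z, loc A s (hle hs), dat_loc dat (hle hs) hs0, hle.trans le_loc, s, hs, hs0,
    inv_mem_loc hs0, ?_⟩
  rintro a ⟨m, hm⟩
  obtain ⟨l, hl⟩ := hAs hm
  refine ⟨l + m, ?_⟩
  rw [pow_add, mul_assoc]
  exact hl

/-- Local rings of `A` are local rings of `A₀`. -/
theorem locV_of_loc {A₀ A : Subalgebra k K} {s : K} (hs : s ∈ A₀) (hs0 : s ≠ 0) (hs' : s⁻¹ ∈ A)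
    (hle : A₀ ≤ A) (h : ∀ a ∈ A, ∃ m : ℕ, s ^ m * a ∈ A₀) {v : ValuationSubring K}
    (hv : ∀ a ∈ A, a ∈ v) {x : K} (hx : x ∈ locV v A) : x ∈ locV v A₀ := by
  have hvs : v.valuation s = 1 := by
    refine le_antisymm ((v.valuation_le_one_iff s).2 (hv _ (hle hs))) ?_
    have h1 := (v.valuation_le_one_iff s⁻¹).2 (hv _ hs')
    rw [map_inv₀] at h1
    rcases eq_or_ne (v.valuation s) 0 with h2 | h2
    · exact absurd ((map_eq_zero _).1 h2) hs0
    · exact (inv_le_one₀ (zero_lt_iff.2 h2)).1 h1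
  obtain ⟨a, ha, b, hb, hb1, rfl⟩ := hx
  obtain ⟨m, hm⟩ := h a ha
  obtain ⟨l, hl⟩ := h b hb
  refine ⟨s ^ l * (s ^ m * a), A₀.mul_mem (A₀.pow_mem hs _) hm,
    s ^ m * (s ^ l * b), A₀.mul_mem (A₀.pow_mem hs _) hl, ?_, ?_⟩
  · rw [map_mul, map_mul, map_pow, map_pow, hvs, one_pow, one_pow, one_mul, one_mul, hb1]
  · have hsm : s ^ m ≠ 0 := pow_ne_zero _ hs0
    have hsl : s ^ l ≠ 0 := pow_ne_zero _ hs0
    rcases eq_or_ne b 0 with rfl | hb0
    · simp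
    · field_simp

end Pool.Agent.TG83A
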