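import Pool.Agent.Lib.TG42.C3
import Pool.Agent.Lib.TG1.Defs

/-!
# TANK G, C42-ASM: generic forms in the coordinates `(x, t)` and their dehomogenisations in the
charts `(x + ∑ a_j t_j, t)`
-/

set_option autoImplicit false

open scoped Classical

namespace Pool.Agent.TG83A

open MvPolynomial
open Pool.Agent.TG42 (Exps vec vec_apply GenT dgT)
open Pool.Agent.TG1 (tl crd)
open Pool.Agent.TGJ (frk frk_mono frk_le_card algebraicIndependent_iff_frk frk_le_of_algebraic)

universe u

/-- The linear form `1 - ∑ a_j X_j`. -/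
noncomputable def lf {k : Type u} [Field k] {N : ℕ} (a : Fin N → k) : MvPolynomial (Fin N) k :=
  1 - ∑ j, C (a j) * X j

/-- The polynomial with coefficients `c`, in the chart `a`. -/
noncomputable def lam {k : Type u} [Field k] {N : ℕ} (T : ℕ) (a : Fin N → k)
    (c : Exps (Fin N) T → k) : MvPolynomial (Fin N) k :=
  letI := Fintype.ofFinite (Exps (Fin N) T)
  ∑ α : Exps (Fin N) T, C (c α) * (lf a ^ (T - α.1.degree) * monomial α.1 1)

/-- The generic forms, dehomogenised in the chart `a`. -/
noncomputable def gp {k : Type u} [Field k] {N : ℕ} (T : ℕ)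
    (γ : Fin (N + 1) × Exps (Fin N) T → k) (a : Fin N → k) (i : Fin (N + 1)) :
    MvPolynomial (Fin N) k := lam T a fun α => γ (i, α)

/-- The generic forms in the elements `x, t` of `K`. -/
noncomputable def Hf {k K : Type u} [Field k] [Field K] [Algebra k K] {N : ℕ} (T : ℕ)
    (γ : Fin (N + 1) × Exps (Fin N) T → k) (x : K) (t : Fin N → K) (i : Fin (N + 1)) : K :=
  letI := Fintype.ofFinite (Exps (Fin N) T)
  ∑ α : Exps (Fin N) T, γ (i, α) • (x ^ (T - α.1.degree) * ∏ j, t j ^ α.1 j)

section

variable {k : Type u} [Field k] {N T : ℕ}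

theorem aeval_lf {L : Type*} [CommRing L] [Algebra k L] (a : Fin N → k) (y : Fin N → L) :
    aeval y (lf a) = 1 - ∑ j, a j • y j := by
  rw [lf, map_sub, map_one, map_sum]
  congr 1
  refine Finset.sum_congr rfl fun j _ => ?_
  rw [map_mul, aeval_C, aeval_X, Algebra.smul_def]

theorem aeval_lam {L : Type*} [CommRing L] [Algebra k L] (a : Fin N → k)
    (c : Exps (Fin N) T → k) (y : Fin N → L) :
    letI := Fintype.ofFinite (Exps (Fin N) T)
    aeval y (lam T a c) = ∑ α : Exps (Fin N) T,
      c α • ((1 - ∑ j, a j • y j) ^ (T - α.1.degree) * ∏ j, y j ^ α.1 j) := by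
  rw [lam, map_sum]
  refine Finset.sum_congr rfl fun α _ => ?_
  rw [map_mul, aeval_C, map_mul, map_pow, aeval_lf, aeval_monomial, map_one, one_mul,
    Finsupp.prod_fintype _ _ fun j => pow_zero _, Algebra.smul_def]

/-- **The charts.** -/
theorem hf_eq {K : Type u} [Field K] [Algebra k K] {n : ℕ} {T : ℕ}
    (γ : Fin (n + 2) × Exps (Fin (n + 1)) T → k) (x : K) (t : Fin (n + 1) → K)
    (a : Fin (n + 1) → k) (h : tl x t a ≠ 0) (i : Fin (n + 2)) :
    Hf T γ x t i = tl x t a ^ T * aeval (crd (tl x t a) t) (gp T γ a i) := by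
  rw [gp, aeval_lam, Hf, Finset.mul_sum]
  refine Finset.sum_congr rfl fun α _ => ?_
  have h1 : (1 - ∑ j, a j • crd (tl x t a) t j) = x / tl x t a := by
    rw [eq_div_iff h, sub_mul, one_mul, Finset.sum_mul, sub_eq_iff_eq_add]
    rw [show tl x t a = x + ∑ i, a i • t i from rfl]
    congr 1
    refine Finset.sum_congr rfl fun j _ => ?_
    rw [show x + ∑ i, a i • t i = tl x t a from rfl, crd, smul_mul_assoc, div_mul_cancel₀ _ h]
  have h2 : ∏ j, crd (tl x t a) t j ^ α.1 j = (∏ j, t j ^ α.1 j) / tl x t a ^ α.1.degree := by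
    rw [Finsupp.degree_eq_sum, ← Finset.prod_pow_eq_pow_sum, ← Finset.prod_div_distrib]
    refine Finset.prod_congr rfl fun j _ => ?_
    rw [crd, div_pow]
  rw [h1, h2, Algebra.smul_def, Algebra.smul_def]
  have h3 : tl x t a ^ T = tl x t a ^ (T - α.1.degree) * tl x t a ^ α.1.degree := by
    rw [← pow_add, Nat.sub_add_cancel α.2]
  rw [h3, div_pow]
  field_simp

theorem totalDegree_lf (a : Fin N → k) : (lf a).totalDegree ≤ 1 := by
  refine (totalDegree_sub _ _).trans (max_le (by rw [totalDegree_one]; exact zero_le_one) ?_)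
  refine totalDegree_finsetSum_le fun j _ => ?_
  refine (totalDegree_mul _ _).trans ?_
  rw [totalDegree_C, totalDegree_X, zero_add]

theorem totalDegree_lam (a : Fin N → k) (c : Exps (Fin N) T → k) :
    (lam T a c).totalDegree ≤ T := by
  rw [lam]
  refine totalDegree_finsetSum_le fun α _ => ?_
  refine (totalDegree_mul _ _).trans ?_
  rw [totalDegree_C, zero_add]
  refine (totalDegree_mul _ _).trans ?_
  have h1 : (lf a ^ (T - α.1.degree)).totalDegree ≤ T - α.1.degree := by
    refine (totalDegree_pow _ _).trans ?_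
    calc (T - α.1.degree) * (lf a).totalDegree ≤ (T - α.1.degree) * 1 :=
          Nat.mul_le_mul_left _ (totalDegree_lf a)
      _ = _ := mul_one _
  have h2 : (monomial α.1 (1 : k)).totalDegree ≤ α.1.degree := by
    rw [totalDegree_monomial _ one_ne_zero]
    exact le_of_eq rfl
  exact (Nat.add_le_add h1 h2).trans (Nat.sub_add_cancel α.2).le

theorem lam_zero_vec {P : MvPolynomial (Fin N) k} (hP : P.totalDegree ≤ T) :
    lam T 0 (vec T P) = P := by
  letI := Fintype.ofFinite (Exps (Fin N) T)
  ext β
  rw [lam, coeff_sum]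
  have h1 : ∀ α : Exps (Fin N) T, coeff β (C (vec T P α) *
      (lf (0 : Fin N → k) ^ (T - α.1.degree) * monomial α.1 1)) =
      if α.1 = β then coeff β P else 0 := by
    intro α
    have h2 : lf (0 : Fin N → k) = 1 := by
      rw [lf]
      simp
    rw [h2, one_pow, one_mul, C_mul_monomial, mul_one, coeff_monomial, vec_apply]
    split_ifs with h3
    · rw [h3]
    · rfl
  simp only [h1]
  by_cases hβ : β.degree ≤ T
  · rw [Finset.sum_eq_single (⟨β, hβ⟩ : Exps (Fin N) T)]
    · rw [if_pos rfl]
    · intro α _ hα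
      rw [if_neg fun h => hα (Subtype.ext h)]
    · intro h
      exact absurd (Finset.mem_univ _) h
  · have h4 : ∀ α : Exps (Fin N) T, ¬ (α.1 = β) := fun α h => hβ (h ▸ α.2)
    simp only [h4, if_false, Finset.sum_const_zero]
    symm
    by_contra h3
    exact hβ ((le_totalDegree (mem_support_iff.2 h3)).trans hP)

theorem eval_lam (a : Fin N → k) (c : Exps (Fin N) T → k) (y : Fin N → k)
    (h : 1 - ∑ j, a j * y j ≠ 0) :
    eval y (lam T a c) = (1 - ∑ j, a j * y j) ^ T *
      eval (fun j => y j / (1 - ∑ j, a j * y j)) (lam T 0 c) := by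
  rw [← aeval_eq_eval, ← aeval_eq_eval, aeval_lam, aeval_lam, Finset.mul_sum]
  refine Finset.sum_congr rfl fun α _ => ?_
  simp only [smul_eq_mul, Pi.zero_apply, zero_mul, Finset.sum_const_zero, sub_zero, one_pow,
    one_mul]
  set u := 1 - ∑ j, a j * y j with hu
  have h2 : ∏ j, (y j / u) ^ α.1 j = (∏ j, y j ^ α.1 j) / u ^ α.1.degree := by
    rw [Finsupp.degree_eq_sum, ← Finset.prod_pow_eq_pow_sum, ← Finset.prod_div_distrib]
    refine Finset.prod_congr rfl fun j _ => ?_
    rw [div_pow]
  have h3 : u ^ T = u ^ (T - α.1.degree) * u ^ α.1.degree := by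
    rw [← pow_add, Nat.sub_add_cancel α.2]
  rw [h2, h3]
  field_simp

/-- Changing the chart is invertible. -/
theorem lam_lam [Infinite k] (a : Fin N → k) (c : Exps (Fin N) T → k) :
    lam T (-a) (vec T (lam T a c)) = lam T 0 c := by
  have hP := totalDegree_lam (T := T) a c
  have h1 : lf (-a) * (lam T (-a) (vec T (lam T a c)) - lam T 0 c) = 0 := by
    refine MvPolynomial.funext fun y => ?_
    rw [map_mul, map_zero, mul_eq_zero]
    by_cases hu : eval y (lf (-a)) = 0
    · exact Or.inl hu
    right
    have hu' : eval y (lf (-a)) = 1 - ∑ j, (-a) j * y j := by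
      rw [← aeval_eq_eval, aeval_lf]
      rfl
    rw [hu'] at hu
    rw [map_sub, sub_eq_zero, eval_lam _ _ _ hu, lam_zero_vec hP]
    set u := 1 - ∑ j, (-a) j * y j with hu1
    have h2 : 1 - ∑ j, a j * (y j / u) = 1 / u := by
      have h3 : ∑ j, a j * (y j / u) = (∑ j, a j * y j) / u := by
        rw [Finset.sum_div]
        exact Finset.sum_congr rfl fun j _ => by ring
      have h4 : ∑ j, a j * y j = u - 1 := by
        rw [hu1]
        simp
      rw [h3, h4]
      field_simp
      ring
    have h5 : (1 - ∑ j, a j * (y j / u)) ≠ 0 := by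
      rw [h2]
      exact one_div_ne_zero hu
    rw [eval_lam _ _ _ h5, h2, ← mul_assoc, ← mul_pow, mul_one_div_cancel hu, one_pow, one_mul]
    congr 2
    funext j
    field_simp
  rcases mul_eq_zero.1 h1 with h2 | h2
  · exfalso
    have h3 := congrArg (eval (0 : Fin N → k)) h2
    rw [← aeval_eq_eval, aeval_lf] at h3
    simp at h3
  · exact sub_eq_zero.1 h2

/-- A family which generates an algebraically independent family of the same size. -/
theorem algInd_of_mem {F L : Type u} [Field F] [Field L] [Algebra F L] {ι : Type} [Fintype ι]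
    {x y : ι → L} (hx : AlgebraicIndependent F x)
    (h : ∀ i, x i ∈ IntermediateField.adjoin F (Set.range y)) : AlgebraicIndependent F y := by
  rw [algebraicIndependent_iff_frk] at hx ⊢
  refine le_antisymm ((frk_le_card F _).trans Finset.card_image_le) ?_
  rw [← hx]
  refine frk_le_of_algebraic F fun a ha => ?_
  obtain ⟨i, -, rfl⟩ := Finset.mem_image.1 ha
  have h1 : x i ∈ IntermediateField.adjoin F ((Finset.univ.image y : Finset L) : Set L) := by
    rw [Finset.coe_image, Finset.coe_univ, Set.image_univ]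
    exact h i
  exact isAlgebraic_algebraMap (⟨x i, h1⟩ :
    IntermediateField.adjoin F ((Finset.univ.image y : Finset L) : Set L))

theorem lf_map {F : Type u} [Field F] [Algebra F k] (a : Fin N → F) :
    map (algebraMap F k) (lf a) = lf fun j => algebraMap F k (a j) := by
  rw [lf, lf, map_sub, map_one, map_sum]
  congr 1
  refine Finset.sum_congr rfl fun j _ => ?_
  rw [map_mul, map_C, map_X]

theorem coeff_lam_mem {F : Type u} [Field F] [Algebra F k] (a : Fin N → F)
    (c : Exps (Fin N) T → k) (β : Fin N →₀ ℕ) :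
    coeff β (lam T (fun j => algebraMap F k (a j)) c) ∈
      IntermediateField.adjoin F (Set.range c) := by
  rw [lam, coeff_sum]
  refine sum_mem fun α _ => ?_
  rw [coeff_C_mul]
  refine mul_mem (IntermediateField.subset_adjoin _ _ ⟨α, rfl⟩) ?_
  have h1 : lf (fun j => algebraMap F k (a j)) ^ (T - α.1.degree) * monomial α.1 (1 : k) =
      map (algebraMap F k) (lf a ^ (T - α.1.degree) * monomial α.1 1) := by
    rw [map_mul, map_pow, lf_map, map_monomial, map_one (algebraMap F k)]
  rw [h1, coeff_map]
  exact IntermediateField.algebraMap_mem _ _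

/-- **The dehomogenised generic forms are generic in every chart over `F`.** -/
theorem gent [Infinite k] {b : ℕ} {F : Type u} [Field F] [Algebra F k]
    {γ : Fin (N + 1) × Exps (Fin N) (dgT N b) → k} (hγ : AlgebraicIndependent F γ)
    (a : Fin N → k) (ha : ∀ j, a j ∈ Set.range (algebraMap F k)) :
    GenT b F (gp (dgT N b) γ a) := by
  choose a' ha' using ha
  obtain rfl : (fun j => algebraMap F k (a' j)) = a := funext ha'
  refine ⟨fun i => totalDegree_lam _ _, ?_⟩
  refine algInd_of_mem hγ fun s => ?_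
  obtain ⟨i, α⟩ := s
  have h1 : coeff α.1 (lam (dgT N b) 0 fun α => γ (i, α)) = γ (i, α) := by
    rw [lam, coeff_sum, Finset.sum_eq_single α]
    · have h2 : lf (0 : Fin N → k) = 1 := by
        rw [lf]
        simp
      rw [h2, one_pow, one_mul, C_mul_monomial, mul_one, coeff_monomial, if_pos rfl]
    · intro β _ hβ
      have h2 : lf (0 : Fin N → k) = 1 := by
        rw [lf]
        simp
      rw [h2, one_pow, one_mul, C_mul_monomial, mul_one, coeff_monomial,
        if_neg fun h => hβ (Subtype.ext h)]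
    · intro h
      exact absurd (Finset.mem_univ _) h
  rw [← h1, ← lam_lam (fun j => algebraMap F k (a' j))]
  have h3 : (-(fun j => algebraMap F k (a' j)) : Fin N → k) =
      fun j => algebraMap F k (-a' j) := by
    funext j
    rw [Pi.neg_apply, map_neg]
  rw [h3]
  have h4 := coeff_lam_mem (T := dgT N b) (fun j => -a' j)
    (vec (dgT N b) (lam (dgT N b) (fun j => algebraMap F k (a' j)) fun α => γ (i, α))) α.1
  refine IntermediateField.adjoin.mono _ _ _ ?_ h4
  rintro _ ⟨β, rfl⟩
  exact ⟨(i, β), rfl⟩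

end

end Pool.Agent.TG83A
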