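import Pool.Agent.Lib.TG_h81.Proj
import Pool.Agent.Lib.ALL_h94.Adj
import Pool.Agent.Lib.ALLZO.PC

/-!
# TANK G, toolbox (T2): the inertia form of unramifiedness

`v` a prime divisor of `Spec k[b, z]` in `K` which is stable under the derivations with
`D(b i), D(z) ∈ v`.  For `N / K₀` finite, `j : K → N` and `W` over `v` the inertia group of `W` over
`K₀` fixes `j(K)`.
-/

set_option autoImplicit false

namespace Pool.Agent.TG

open Pool.Agent.LU2 (locV)
open Pool.Agent.ALLh94 (PExp mon pexp_of_sep_adjoin exists_dual_of_pexp)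
open Pool.Agent.ALLZO (pexp_stable)
open Polynomial

universe u

section Core

variable {L N : Type u} [Field L] [Field N] [Algebra L N] (W : ValuationSubring N)

/-- A uniformizer of the base. -/
theorem exists_unif [IsDiscreteValuationRing (W.comap (algebraMap L N))] :
    ∃ π : L, W.valuation (algebraMap L N π) < 1 ∧
      (∀ a : L, W.valuation (algebraMap L N a) < 1 →
        W.valuation (algebraMap L N a) ≤ W.valuation (algebraMap L N π)) ∧
      ∀ c : L, c ≠ 0 →
        ∃ n : ℕ, W.valuation (algebraMap L N π) ^ n < W.valuation (algebraMap L N c) := by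
  set V := W.comap (algebraMap L N) with hV
  obtain ⟨ϖ, hϖ⟩ := IsDiscreteValuationRing.exists_irreducible V
  have hunit : ∀ a : V, IsUnit a → W.valuation (algebraMap L N (a : L)) = 1 := by
    rintro _ ⟨a, rfl⟩
    have h1 : W.valuation (algebraMap L N ((a : V) : L)) ≤ 1 :=
      (ValuationSubring.valuation_le_one_iff _ _).2 (a : V).2
    have h2 : W.valuation (algebraMap L N (((a⁻¹ : Vˣ) : V) : L)) ≤ 1 :=
      (ValuationSubring.valuation_le_one_iff _ _).2 ((a⁻¹ : Vˣ) : V).2
    have h3 : W.valuation (algebraMap L N ((a : V) : L)) *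
        W.valuation (algebraMap L N (((a⁻¹ : Vˣ) : V) : L)) = 1 := by
      rw [← map_mul, ← map_mul, ← MulMemClass.coe_mul, Units.mul_inv, OneMemClass.coe_one, map_one,
        map_one]
    refine le_antisymm h1 ?_
    rw [← h3]
    exact mul_le_of_le_one_right' h2
  have hlt : ∀ a : V, ¬ IsUnit a → W.valuation (algebraMap L N (a : L)) < 1 := by
    intro a ha
    refine lt_of_le_of_ne ((ValuationSubring.valuation_le_one_iff _ _).2 a.2) fun h => ha ?_
    have h0 : (a : L) ≠ 0 := by
      intro h0
      rw [h0, map_zero, map_zero] at h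
      exact zero_ne_one h
    have h1 : (a : L)⁻¹ ∈ V := by
      change algebraMap L N (a : L)⁻¹ ∈ W
      rw [← ValuationSubring.valuation_le_one_iff, map_inv₀, map_inv₀, h, inv_one]
    refine IsUnit.of_mul_eq_one (⟨(a : L)⁻¹, h1⟩ : V) ?_
    exact Subtype.ext (mul_inv_cancel₀ h0)
  have hπ := hlt ϖ hϖ.not_isUnit
  refine ⟨(ϖ : L), hπ, ?_, ?_⟩
  · intro a ha
    have haV : a ∈ V := (ValuationSubring.valuation_le_one_iff W _).1 ha.le
    have h1 : (⟨a, haV⟩ : V) ∈ IsLocalRing.maximalIdeal V := by
      rw [IsLocalRing.mem_maximalIdeal, mem_nonunits_iff]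
      intro h
      exact ha.ne (hunit _ h)
    rw [hϖ.maximalIdeal_eq, Ideal.mem_span_singleton] at h1
    obtain ⟨c, hc⟩ := h1
    have h2 : a = (ϖ : L) * (c : L) := congrArg Subtype.val hc
    rw [h2, map_mul, map_mul]
    exact mul_le_of_le_one_right' ((ValuationSubring.valuation_le_one_iff _ _).2 c.2)
  · intro c hc
    rcases V.mem_or_inv_mem c with h | h
    · obtain ⟨n, u, hu⟩ := IsDiscreteValuationRing.eq_unit_mul_pow_irreducible
        (x := (⟨c, h⟩ : V)) (fun h0 => hc (congrArg Subtype.val h0)) hϖ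
      have h2 : c = ((u : V) : L) * (ϖ : L) ^ n := congrArg Subtype.val hu
      refine ⟨n + 1, ?_⟩
      have h3 : W.valuation (algebraMap L N (ϖ : L)) ≠ 0 := by
        rw [Valuation.ne_zero_iff]
        intro h0
        have h4 : (ϖ : L) = 0 := (map_eq_zero _).1 h0
        exact hϖ.ne_zero (Subtype.ext h4)
      rw [h2, map_mul, map_mul, hunit _ u.isUnit, one_mul, map_pow, map_pow, pow_succ]
      exact mul_lt_of_lt_one_right (pow_pos (zero_lt_iff.2 h3) n) hπ
    · refine ⟨1, ?_⟩
      rw [pow_one]
      refine lt_of_lt_of_le hπ ?_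
      have h1 : W.valuation (algebraMap L N c⁻¹) ≤ 1 :=
        (ValuationSubring.valuation_le_one_iff _ _).2 h
      rw [map_inv₀, map_inv₀] at h1
      exact (inv_le_one₀ (zero_lt_iff.2 (by
        rw [Valuation.ne_zero_iff]
        exact fun h0 => hc ((map_eq_zero _).1 h0)))).1 h1

variable [FiniteDimensional L N]

/-- In a finite extension the `[N : L]`-th powers of elements of positive value are divisible by a
uniformizer of the base. -/
theorem pow_finrank_le {π : L} (hπ1 : ∀ a : L, W.valuation (algebraMap L N a) < 1 →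
      W.valuation (algebraMap L N a) ≤ W.valuation (algebraMap L N π)) {w : N}
    (hw : W.valuation w < 1) :
    W.valuation w ^ Module.finrank L N ≤ W.valuation (algebraMap L N π) := by
  classical
  by_cases hw0 : w = 0
  · rw [hw0, map_zero, zero_pow Module.finrank_pos.ne']
    exact zero_le
  have hint : IsIntegral L w := Algebra.IsIntegral.isIntegral w
  set g := minpoly L w with hg
  have hg0 : g ≠ 0 := minpoly.ne_zero hint
  set u : ℕ → W.ValueGroup := fun i => W.valuation (algebraMap L N (g.coeff i)) with hu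
  obtain ⟨i₁, hi₁, hmax⟩ := g.support.exists_max_image u
    ⟨g.natDegree, natDegree_mem_support_of_nonzero hg0⟩
  have hex : ∃ i, u i = u i₁ := ⟨i₁, rfl⟩
  set i := Nat.find hex with hidef
  have hi : u i = u i₁ := Nat.find_spec hex
  have hmax' : ∀ j, u j ≤ u i := by
    intro j
    by_cases hj : j ∈ g.support
    · exact (hmax j hj).trans hi.ge
    · have : u j = 0 := by
        rw [hu]
        change W.valuation (algebraMap L N (g.coeff j)) = 0
        rw [notMem_support_iff.1 hj, map_zero, map_zero]
      rw [this]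
      exact zero_le
  have hlt : ∀ j < i, u j < u i := fun j hj =>
    lt_of_le_of_ne (hmax' j) fun h => Nat.find_min hex hj (h.trans hi)
  have hui : 0 < u i := by
    rw [hi]
    rw [zero_lt_iff, hu]
    change W.valuation (algebraMap L N (g.coeff i₁)) ≠ 0
    rw [Valuation.ne_zero_iff]
    exact fun h0 => mem_support_iff.1 hi₁ ((map_eq_zero _).1 h0)
  have hgi : g.coeff i ≠ 0 := by
    intro h0
    have : u i = 0 := by
      change W.valuation (algebraMap L N (g.coeff i)) = 0
      rw [h0, map_zero, map_zero]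
    exact hui.ne' this
  have hin : i ≤ g.natDegree := le_natDegree_of_ne_zero hgi
  have hwv : 0 < W.valuation w := zero_lt_iff.2 ((Valuation.ne_zero_iff _).2 hw0)
  have key : W.valuation w ^ i ≤ W.valuation (algebraMap L N π) := by
    by_contra hcon
    push Not at hcon
    have h0 : aeval w g = 0 := minpoly.aeval _ _
    rw [aeval_eq_sum_range, ← Finset.add_sum_erase _ _ (Finset.mem_range_succ_iff.2 hin)] at h0
    have h1 : W.valuation (∑ j ∈ (Finset.range (g.natDegree + 1)).erase i, g.coeff j • w ^ j) <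
        u i * W.valuation w ^ i := by
      refine Valuation.map_sum_lt _ (mul_ne_zero hui.ne' (pow_ne_zero _ hwv.ne')) ?_
      intro j hj
      rw [Algebra.smul_def, map_mul, map_pow]
      change u j * W.valuation w ^ j < _
      rcases lt_or_gt_of_ne (Finset.ne_of_mem_erase hj) with h | h
      · have h2 : u j ≤ u i * W.valuation (algebraMap L N π) := by
          have h3 : W.valuation (algebraMap L N (g.coeff j / g.coeff i)) < 1 := by
            rw [map_div₀, map_div₀]
            exact (div_lt_one₀ hui).2 (hlt j h)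
          have h4 := hπ1 _ h3
          rw [map_div₀, map_div₀] at h4
          rw [mul_comm]
          exact (div_le_iff₀ hui).1 h4
        calc u j * W.valuation w ^ j ≤ u j * 1 :=
              mul_le_mul_right (pow_le_one' hw.le j) _
          _ = u j := mul_one _
          _ ≤ u i * W.valuation (algebraMap L N π) := h2
          _ < u i * W.valuation w ^ i := mul_lt_mul_of_pos_left hcon hui
      · calc u j * W.valuation w ^ j ≤ u i * W.valuation w ^ j :=
              mul_le_mul_left (hmax' j) _
          _ < u i * W.valuation w ^ i :=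
              mul_lt_mul_of_pos_left (pow_lt_pow_right_of_lt_one₀ hwv hw h) hui
    have h2 : W.valuation (g.coeff i • w ^ i) = u i * W.valuation w ^ i := by
      rw [Algebra.smul_def, map_mul, map_pow]
    have h3 : g.coeff i • w ^ i =
        - ∑ j ∈ (Finset.range (g.natDegree + 1)).erase i, g.coeff j • w ^ j :=
      eq_neg_of_add_eq_zero_left h0
    rw [← h2, h3, Valuation.map_neg] at h1
    exact lt_irrefl _ h1
  refine le_trans ?_ key
  exact pow_le_pow_right_of_le_one' hw.le (hin.trans (minpoly.natDegree_le w))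

/-- Below every element there is an element of the base. -/
theorem exists_base_le {w : N} (hw0 : w ≠ 0) (hw : W.valuation w < 1) :
    ∃ c : L, c ≠ 0 ∧ W.valuation (algebraMap L N c) ≤ W.valuation w := by
  classical
  have hint : IsIntegral L w := Algebra.IsIntegral.isIntegral w
  set g := minpoly L w with hg
  have hg0 : g ≠ 0 := minpoly.ne_zero hint
  have hc0 : g.coeff 0 ≠ 0 := minpoly.coeff_zero_ne_zero hint hw0
  set u : ℕ → W.ValueGroup := fun i => W.valuation (algebraMap L N (g.coeff i)) with hu
  obtain ⟨i, hi, hmax⟩ := g.support.exists_max_image u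
    ⟨g.natDegree, natDegree_mem_support_of_nonzero hg0⟩
  have hmax' : ∀ j, u j ≤ u i := by
    intro j
    by_cases hj : j ∈ g.support
    · exact hmax j hj
    · have : u j = 0 := by
        change W.valuation (algebraMap L N (g.coeff j)) = 0
        rw [notMem_support_iff.1 hj, map_zero, map_zero]
      rw [this]
      exact zero_le
  have hgi : g.coeff i ≠ 0 := mem_support_iff.1 hi
  have hui : 0 < u i := by
    rw [zero_lt_iff]
    change W.valuation (algebraMap L N (g.coeff i)) ≠ 0
    rw [Valuation.ne_zero_iff]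
    exact fun h0 => hgi ((map_eq_zero _).1 h0)
  refine ⟨g.coeff 0 / g.coeff i, div_ne_zero hc0 hgi, ?_⟩
  rw [map_div₀, map_div₀]
  refine (div_le_iff₀ hui).2 ?_
  have h0 : aeval w g = 0 := minpoly.aeval _ _
  rw [aeval_eq_sum_range, ← Finset.add_sum_erase _ _
    (Finset.mem_range_succ_iff.2 (Nat.zero_le g.natDegree))] at h0
  have h3 : g.coeff 0 • w ^ 0 =
      - ∑ j ∈ (Finset.range (g.natDegree + 1)).erase 0, g.coeff j • w ^ j :=
    eq_neg_of_add_eq_zero_left h0
  have h4 : algebraMap L N (g.coeff 0) = g.coeff 0 • w ^ 0 := by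
    rw [pow_zero, Algebra.smul_def, mul_one]
  rw [h4, h3, Valuation.map_neg]
  refine Valuation.map_sum_le _ ?_
  intro j hj
  rw [Algebra.smul_def, map_mul, map_pow, mul_comm]
  have hj0 : j ≠ 0 := Finset.ne_of_mem_erase hj
  refine mul_le_mul' ?_ (hmax' j)
  calc W.valuation w ^ j ≤ W.valuation w ^ 1 :=
        pow_le_pow_right_of_le_one' hw.le (Nat.one_le_iff_ne_zero.2 hj0)
    _ = W.valuation w := pow_one _

/-- The contraction argument. -/
theorem eq_zero_of_step [IsDiscreteValuationRing (W.comap (algebraMap L N))] {p : ℕ} (hp : 1 < p)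
    {X : Type*} (S : Set X) (δ : X → N) (h1 : ∀ x ∈ S, W.valuation (δ x) < 1)
    (hs : ∀ x ∈ S, ∃ y ∈ S, W.valuation (δ x) ≤ W.valuation (δ y) ^ p) :
    ∀ x ∈ S, δ x = 0 := by
  intro x hx
  by_contra hne
  obtain ⟨π, hπ, hπ1, hπ2⟩ := exists_unif (L := L) W
  obtain ⟨c, hc, hcx⟩ := exists_base_le (L := L) W hne (h1 x hx)
  obtain ⟨n, hn⟩ := hπ2 c hc
  have hit : ∀ s : ℕ, ∃ y ∈ S, W.valuation (δ x) ≤ W.valuation (δ y) ^ p ^ s := by
    intro s
    induction s with
    | zero => exact ⟨x, hx, by rw [pow_zero, pow_one]⟩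
    | succ s ih =>
      obtain ⟨y, hy, h⟩ := ih
      obtain ⟨y', hy', h'⟩ := hs y hy
      refine ⟨y', hy', h.trans ?_⟩
      rw [pow_succ', pow_mul]
      exact pow_le_pow_left' h' _
  obtain ⟨y, hy, h⟩ := hit (Module.finrank L N * n)
  have h2 : Module.finrank L N * n ≤ p ^ (Module.finrank L N * n) :=
    (Nat.lt_pow_self hp).le
  have h3 := pow_finrank_le (L := L) W hπ1 (h1 y hy)
  have h4 : W.valuation (δ x) ≤ W.valuation (algebraMap L N π) ^ n := by
    calc W.valuation (δ x) ≤ W.valuation (δ y) ^ p ^ (Module.finrank L N * n) := h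
      _ ≤ W.valuation (δ y) ^ (Module.finrank L N * n) :=
          pow_le_pow_right_of_le_one' (h1 y hy).le h2
      _ = (W.valuation (δ y) ^ Module.finrank L N) ^ n := pow_mul _ _ _
      _ ≤ _ := pow_le_pow_left' h3 n
  exact absurd hn (not_lt.2 (hcx.trans h4))

end Core

section Main

variable {k K : Type u} [Field k] [Field K] [Algebra k K] {m : ℕ} {b : Fin m → K} {z : K}
  {v : ValuationSubring K}

/-- A prime divisor is a discrete valuation ring on `k(b, z)`. -/
theorem PDiv.dvr (hv : PDiv k b z v) :
    IsDiscreteValuationRing (v.comap (algebraMap (KB k b z) K)) := by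
  classical
  set v₀ := v.comap (algebraMap (KB k b z) K) with hv₀
  set A : Subalgebra k K := Algebra.adjoin k (insert z (Set.range b)) with hA
  have hAfg : A.FG := by
    have hfin : (insert z (Set.range b)).Finite := (Set.finite_range b).insert z
    refine ⟨hfin.toFinset, ?_⟩
    rw [Set.Finite.coe_toFinset]
  have hAn : IsNoetherianRing A := isNoetherianRing_of_fg hAfg
  have hAK : ∀ a ∈ A, a ∈ KB k b z := fun a ha =>
    IntermediateField.algebra_adjoin_le_adjoin k _ ha
  have hAv : ∀ a ∈ A, a ∈ v := by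
    intro a ha
    have h1 : A ≤ valg hv.ov := by
      rw [hA, Algebra.adjoin_le_iff]
      rintro x (rfl | ⟨i, rfl⟩)
      · exact hv.z_mem
      · exact hv.b_mem i
    exact h1 ha
  let φ : A →+* v₀ :=
    { toFun := fun a => ⟨⟨(a : K), hAK _ a.2⟩, hAv _ a.2⟩
      map_one' := rfl
      map_mul' := fun _ _ => rfl
      map_zero' := rfl
      map_add' := fun _ _ => rfl }
  have hφ : ∀ a : A, (((φ a : v₀) : KB k b z) : K) = (a : K) := fun _ => rfl
  have hnoeth : IsNoetherianRing v₀ := by
    refine isNoetherianRing_iff_ideal_fg _ |>.2 fun I => ?_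
    have h1 : (I.comap φ).FG := (isNoetherianRing_iff_ideal_fg A).1 hAn _
    have h2 : I = (I.comap φ).map φ := by
      refine le_antisymm ?_ Ideal.map_comap_le
      intro x hx
      obtain ⟨a, ha, s, hs, hvs, hxas⟩ := hv.centre (x : KB k b z) (x : KB k b z).2 x.2
      have hs0 : s ≠ 0 := by
        rintro rfl
        simp at hvs
      have hsv : s⁻¹ ∈ v := by
        rw [← ValuationSubring.valuation_le_one_iff, map_inv₀, hvs, inv_one]
      have hsK : s⁻¹ ∈ KB k b z := inv_mem (hAK s hs)
      have h3 : φ ⟨a, ha⟩ = φ ⟨s, hs⟩ * x := by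
        apply Subtype.ext
        apply Subtype.ext
        change a = s * ((x : KB k b z) : K)
        rw [hxas]
        field_simp
      have h4 : x = (⟨⟨s⁻¹, hsK⟩, hsv⟩ : v₀) * φ ⟨a, ha⟩ := by
        apply Subtype.ext
        apply Subtype.ext
        change ((x : KB k b z) : K) = s⁻¹ * a
        rw [hxas, div_eq_mul_inv, mul_comm]
      rw [h4]
      refine Ideal.mul_mem_left _ _ (Ideal.mem_map_of_mem φ ?_)
      rw [Ideal.mem_comap, h3]
      exact Ideal.mul_mem_left _ _ hx
    rw [h2]
    exact Ideal.FG.map h1 φ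
  have hPIR : IsPrincipalIdealRing v₀ := inferInstance
  refine { not_a_field' := ?_ }
  intro hbot
  obtain ⟨x, hxK, hxv⟩ := hv.ne
  have hx0 : x ≠ 0 := by
    rintro rfl
    exact hxv v.zero_mem
  have h1 : x⁻¹ ∈ v := (v.mem_or_inv_mem x).resolve_left hxv
  have h2 : (⟨⟨x⁻¹, inv_mem hxK⟩, h1⟩ : v₀) ∈ IsLocalRing.maximalIdeal v₀ := by
    rw [IsLocalRing.mem_maximalIdeal, mem_nonunits_iff]
    intro hu
    obtain ⟨y, hy⟩ := hu.exists_right_inv
    have h3 : x⁻¹ * (((y : v₀) : KB k b z) : K) = 1 :=
      congrArg (fun e : v₀ => ((e : KB k b z) : K)) hy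
    have h4 : (((y : v₀) : KB k b z) : K) = x := by
      field_simp at h3
      exact h3
    exact hxv (h4 ▸ y.2)
  rw [hbot, Ideal.mem_bot] at h2
  have h3 : x⁻¹ = 0 := congrArg (fun e : v₀ => ((e : KB k b z) : K)) h2
  exact hx0 (inv_eq_zero.1 h3)

/-- The coordinates `z, b` as one family. -/
def zb (b : Fin m → K) (z : K) : Option (Fin m) → K := fun o => o.elim z b

omit [Field K] in
theorem range_zb (b : Fin m → K) (z : K) : Set.range (zb b z) = insert z (Set.range b) := by
  ext x
  constructor
  · rintro ⟨o, rfl⟩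
    cases o with
    | none => exact Or.inl rfl
    | some i => exact Or.inr ⟨i, rfl⟩
  · rintro (rfl | ⟨i, rfl⟩)
    · exact ⟨none, rfl⟩
    · exact ⟨some i, rfl⟩

theorem exists_root_of_perfect (k : Type u) [Field k] [PerfectField k] (p : ℕ) [Fact p.Prime]
    [CharP k p] (c : k) : ∃ d : k, d ^ p = c := by
  have h : ExpChar k p := ExpChar.prime Fact.out
  have : PerfectRing k p := PerfectField.toPerfectRing p
  obtain ⟨d, hd⟩ := surjective_frobenius k p c
  exact ⟨d, hd⟩

/-- `p`-coordinates of `K` with respect to `z, b`. -/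
theorem pexp_KB [PerfectField k] {p : ℕ} [Fact p.Prime] [CharP K p]
    (sep : Algebra.IsSeparable (KB k b z) K) : PExp p (zb b z) (Set.univ : Set K) := by
  have hk : CharP k p := (algebraMap k K).charP (algebraMap k K).injective p
  refine pexp_of_sep_adjoin (p := p) (exists_root_of_perfect k p) (zb b z) ?_
  rw [range_zb]
  exact sep

theorem essFiniteType_KB (fin : FiniteDimensional (KB k b z) K) : Algebra.EssFiniteType k K := by
  have h1 : (KB k b z).FG := by
    have hfin : (insert z (Set.range b)).Finite := (Set.finite_range b).insert z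
    exact ⟨hfin.toFinset, by rw [Set.Finite.coe_toFinset]⟩
  have h2 : Algebra.EssFiniteType k (KB k b z) := IntermediateField.essFiniteType_iff.2 h1
  exact Algebra.EssFiniteType.comp k (KB k b z) K

theorem algInd_zb (ind : AlgebraicIndependent k b) (tr : Transcendental (LB k b) z) :
    AlgebraicIndependent k (zb b z) := by
  refine (ind.option_iff_transcendental z).2 ?_
  intro h
  refine tr ?_
  obtain ⟨q, hq, hz⟩ := h
  have hle : Algebra.adjoin k (Set.range b) ≤ (LB k b).toSubalgebra :=
    IntermediateField.algebra_adjoin_le_adjoin k _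
  refine ⟨q.map (Subalgebra.inclusion hle).toRingHom, ?_, ?_⟩
  · intro h0
    refine hq ?_
    refine Polynomial.map_injective _ (Subalgebra.inclusion_injective hle) ?_
    rw [Polynomial.map_zero]
    exact h0
  · rw [aeval_def, eval₂_map]
    rw [aeval_def] at hz
    exact hz

theorem trdeg_KB (ind : AlgebraicIndependent k b) (tr : Transcendental (LB k b) z)
    (fin : FiniteDimensional (KB k b z) K) :
    Algebra.trdeg k K = Fintype.card (Option (Fin m)) := by
  have h1 := algInd_zb ind tr
  have h2 : IsTranscendenceBasis k (zb b z) := by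
    rw [h1.isTranscendenceBasis_iff_isAlgebraic, range_zb]
    have h3 : Algebra.IsAlgebraic (KB k b z) K := inferInstance
    exact IntermediateField.isAlgebraic_adjoin_iff_top.1 h3
  have h3 := h2.lift_cardinalMk_eq_trdeg
  rw [Cardinal.mk_fintype, Cardinal.lift_natCast, Cardinal.lift_id'] at h3
  exact h3.symm

/-- The derivations dual to `z, b`. -/
theorem exists_dual_KB [PerfectField k] {p : ℕ} [Fact p.Prime] [CharP K p]
    (ind : AlgebraicIndependent k b) (tr : Transcendental (LB k b) z)
    (fin : FiniteDimensional (KB k b z) K) (sep : Algebra.IsSeparable (KB k b z) K) :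
    ∃ d : Option (Fin m) → Derivation k K K,
      (∀ i j, d i (zb b z j) = if i = j then 1 else 0) ∧
      ∀ (δ : Derivation k K K) (x : K), δ x = ∑ i, δ (zb b z i) * d i x := by
  have h1 := essFiniteType_KB fin
  exact exists_dual_of_pexp (trdeg_KB ind tr fin) (zb b z) (pexp_KB (p := p) sep)

/-- `p`-coordinates of a valuation ring stable under the derivations. -/
theorem pexp_of_der [PerfectField k] {p : ℕ} [Fact p.Prime] [CharP K p]
    (ind : AlgebraicIndependent k b) (tr : Transcendental (LB k b) z)
    (fin : FiniteDimensional (KB k b z) K) (sep : Algebra.IsSeparable (KB k b z) K)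
    (hb : ∀ i, b i ∈ v) (hz : z ∈ v)
    (hder : ∀ d : Derivation k K K, (∀ i, d (b i) ∈ v) → d z ∈ v → ∀ x ∈ v, d x ∈ v) :
    PExp p (zb b z) (v : Set K) := by
  obtain ⟨d, hd, -⟩ := exists_dual_KB (p := p) ind tr fin sep
  have hone : ∀ i j, d i (zb b z j) ∈ v := by
    intro i j
    rw [hd]
    split_ifs
    · exact v.one_mem
    · exact v.zero_mem
  refine pexp_stable (p := p) (zb b z) (fun i => (d i).restrictScalars ℤ)
    (fun i j => hd i j) (pexp_KB (p := p) sep) v.toSubring.toAddSubgroup ?_ ?_ ?_
  · intro i a ha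
    exact hder (d i) (fun j => hone i (some j)) (hone i none) a ha
  · intro i a ha
    refine v.mul_mem _ _ ?_ ha
    cases i with
    | none => exact hz
    | some i => exact hb i
  · intro a ha
    change a ∈ v
    change a ^ p ∈ v at ha
    rw [← ValuationSubring.valuation_le_one_iff] at ha ⊢
    rw [map_pow] at ha
    exact (pow_le_one_iff (Fact.out : p.Prime).ne_zero).1 ha

/-- **(T2)** The inertia group fixes `K`. -/
theorem inertia_fixes [PerfectField k] {p : ℕ} [Fact p.Prime] [CharP K p]
    (hv : PDiv k b z v) (ind : AlgebraicIndependent k b) (tr : Transcendental (LB k b) z)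
    (fin : FiniteDimensional (KB k b z) K) (sep : Algebra.IsSeparable (KB k b z) K)
    (hder : ∀ d : Derivation k K K, (∀ i, d (b i) ∈ v) → d z ∈ v → ∀ x ∈ v, d x ∈ v)
    {N : Type u} [Field N] [Algebra (KB k b z) N] [FiniteDimensional (KB k b z) N]
    (j : K →ₐ[KB k b z] N) (W : ValuationSubring N) (hW : W.comap (j : K →+* N) = v)
    (σ : N ≃ₐ[KB k b z] N) (hσ : ∀ x ∈ v, W.valuation (σ (j x) - j x) < 1) (x : K) :
    σ (j x) = j x := by
  classical
  have hchN : CharP N p := by
    have h1 : CharP (KB k b z) p :=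
      (algebraMap (KB k b z) K).charP (algebraMap (KB k b z) K).injective p
    exact charP_of_injective_algebraMap (algebraMap (KB k b z) N).injective p
  have hexp := pexp_of_der (p := p) ind tr fin sep hv.b_mem hv.z_mem hder
  have hcomap : W.comap (algebraMap (KB k b z) N) = v.comap (algebraMap (KB k b z) K) := by
    rw [← hW, ValuationSubring.comap_comap]
    congr 1
    exact j.comp_algebraMap.symm
  have hdvr : IsDiscreteValuationRing (W.comap (algebraMap (KB k b z) N)) := by
    rw [hcomap]
    exact hv.dvr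
  have hjW : ∀ y ∈ v, W.valuation (j y) ≤ 1 := by
    intro y hy
    rw [ValuationSubring.valuation_le_one_iff]
    rw [← hW] at hy
    exact hy
  have htK : ∀ i, ∃ c : KB k b z, zb b z i = algebraMap (KB k b z) K c := by
    intro i
    have h1 : zb b z i ∈ KB k b z := by
      have h2 : zb b z i ∈ insert z (Set.range b) := by
        rw [← range_zb]
        exact ⟨i, rfl⟩
      exact IntermediateField.subset_adjoin _ _ h2
    exact ⟨⟨_, h1⟩, rfl⟩
  have htv : ∀ i, zb b z i ∈ v := by
    intro i
    cases i with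
    | none => exact hv.z_mem
    | some i => exact hv.b_mem i
  have hmon : ∀ α : Option (Fin m) → Fin p, σ (j (mon (zb b z) α)) = j (mon (zb b z) α) := by
    intro α
    unfold mon
    rw [map_prod, map_prod]
    refine Finset.prod_congr rfl fun i _ => ?_
    obtain ⟨c, hc⟩ := htK i
    rw [hc, map_pow, map_pow, j.commutes, σ.commutes]
  have hmonv : ∀ α : Option (Fin m) → Fin p, mon (zb b z) α ∈ v := by
    intro α
    unfold mon
    exact prod_mem fun i _ => pow_mem (htv i) _
  -- the contraction
  have hz : ∀ y ∈ (v : Set K), σ (j y) - j y = 0 := by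
    refine eq_zero_of_step (L := KB k b z) W (Fact.out : p.Prime).one_lt (v : Set K)
      (fun y => σ (j y) - j y) (fun y hy => hσ y hy) ?_
    intro y hy
    obtain ⟨c, hc, hyc⟩ := hexp y hy
    obtain ⟨α, -, hα⟩ := (Finset.univ : Finset (Option (Fin m) → Fin p)).exists_max_image
      (fun α => W.valuation (σ (j (c α)) - j (c α))) ⟨fun _ => ⟨0, (Fact.out : p.Prime).pos⟩,
        Finset.mem_univ _⟩
    refine ⟨c α, hc α, ?_⟩
    have h1 : σ (j y) - j y =
        ∑ β : Option (Fin m) → Fin p, j (mon (zb b z) β) * (σ (j (c β)) - j (c β)) ^ p := by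
      rw [hyc, map_sum, map_sum, ← Finset.sum_sub_distrib]
      refine Finset.sum_congr rfl fun β _ => ?_
      rw [map_mul, map_mul, hmon, map_pow, map_pow, sub_pow_char, mul_sub]
    change W.valuation (σ (j y) - j y) ≤ _
    rw [h1]
    refine Valuation.map_sum_le _ fun β _ => ?_
    rw [map_mul, map_pow]
    calc W.valuation (j (mon (zb b z) β)) * W.valuation (σ (j (c β)) - j (c β)) ^ p
        ≤ 1 * W.valuation (σ (j (c α)) - j (c α)) ^ p :=
          mul_le_mul' (hjW _ (hmonv β)) (pow_le_pow_left' (hα β (Finset.mem_univ _)) p)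
      _ = _ := one_mul _
  rcases v.mem_or_inv_mem x with h | h
  · exact sub_eq_zero.1 (hz x h)
  · have h1 := sub_eq_zero.1 (hz x⁻¹ h)
    rw [map_inv₀, map_inv₀, inv_inj] at h1
    exact h1

/-- (T2) for `Proj`. -/
theorem Proj.inertia_fixes [PerfectField k] {p : ℕ} [Fact p.Prime] [CharP K p]
    {A₀ : Subalgebra k K} {d : ℕ} {f : (LB k b)[X]} {C : Finset K} (h : Proj A₀ d b z f C)
    (hv : PDiv k b z v) (hz1 : v.valuation z = 1) (hb1 : ∀ i, v.valuation (b i) = 1)
    (hC1 : ∀ c ∈ C, v.valuation c = 1) (hf1 : v.valuation (aeval z f) = 1)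
    {N : Type u} [Field N] [Algebra (KB k b z) N] [FiniteDimensional (KB k b z) N]
    (j : K →ₐ[KB k b z] N) (W : ValuationSubring N) (hW : W.comap (j : K →+* N) = v)
    (σ : N ≃ₐ[KB k b z] N) (hσ : ∀ x ∈ v, W.valuation (σ (j x) - j x) < 1) (x : K) :
    σ (j x) = j x :=
  Pool.Agent.TG.inertia_fixes (p := p) hv h.ind h.tr h.fin h.sep
    (h.good v hv hz1 hb1 hC1 hf1).der j W hW σ hσ x

end Main

end Pool.Agent.TG
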